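import Mathlib

namespace Pool.Agent.Results.MP_332c3b_lc.Closed
open Metric Filter Topology

/-- Proper closed two-sided ideals. -/
def Id' (A : Type) [NormedRing A] : Type :=
  {K : TwoSidedIdeal A // IsClosed (K : Set A) ∧ K ≠ ⊤}

/-- The Wijsman topology. -/
@[reducible] noncomputable def wij (A : Type) [NormedRing A] : TopologicalSpace (Id' A) :=
  TopologicalSpace.induced (fun K x => infDist x (K.1 : Set A)) Pi.topologicalSpace

/-- The ideals with Dedekind finite quotient. -/
def DF (A : Type) [NormedRing A] : Set (Id' A) :=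
  {K | ∀ a b : K.1.ringCon.Quotient, a * b = 1 → b * a = 1}

theorem DF_iff {A : Type} [NormedRing A] (K : Id' A) :
    K ∈ DF A ↔ ∀ a b : A, a * b - 1 ∈ K.1 → b * a - 1 ∈ K.1 := by
  have e : ∀ x : A, (x : K.1.ringCon.Quotient) = 1 ↔ x - 1 ∈ K.1 := fun x =>
    (RingCon.eq _).trans (K.1.rel_iff x 1)
  refine ⟨fun h a b hab => (e _).1 (h a b ((e _).2 hab)), fun h a b => ?_⟩
  obtain ⟨a, rfl⟩ := Quotient.exists_rep a
  obtain ⟨b, rfl⟩ := Quotient.exists_rep b
  exact fun hab => (e _).2 (h a b ((e _).1 hab))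

theorem result (A : Type) [NormedRing A] [NormedAlgebra ℂ A] [CompleteSpace A] :
    @IsClosed _ (wij A) (DF A) := by
  letI := wij A
  have c0 : Continuous fun (K : Id' A) x => infDist x (K.1 : Set A) := continuous_induced_dom
  have ct : ∀ x : A, Continuous fun K : Id' A => infDist x (K.1 : Set A) := fun x =>
    (continuous_apply x).comp c0
  refine isClosed_of_closure_subset fun K hK => (DF_iff K).2 fun a b hab => ?_
  by_contra hba
  have cp : 0 < infDist (b * a - 1) (K.1 : Set A) :=
    (K.2.1.notMem_iff_infDist_pos ⟨0, K.1.zero_mem⟩).1 hba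
  set c := infDist (b * a - 1) (K.1 : Set A) with hc
  have h1 : ContinuousAt (fun e : A => ‖b * (1 - Ring.inverse (1 - e)) * a‖) 0 := by
    have : ContinuousAt (fun e : A => Ring.inverse (1 - e)) 0 :=
      ContinuousAt.comp (g := Ring.inverse) (by simpa using NormedRing.inverse_continuousAt (1 : Aˣ))
        (by fun_prop)
    fun_prop
  obtain ⟨ε, hε, h2⟩ := Metric.eventually_nhds_iff.1
    (h1.eventually_lt_const (u := c / 2) (by simpa using cp))
  obtain ⟨L, ⟨l1, l2⟩, l3⟩ := mem_closure_iff.1 hK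
    ({L | infDist (a * b - 1) (L.1 : Set A) < min ε 1} ∩ {L | c / 2 < infDist (b * a - 1) L.1})
    ((isOpen_lt (ct _) continuous_const).inter (isOpen_lt continuous_const (ct _)))
    ⟨by simp [infDist_zero_of_mem hab, hε], half_lt_self cp⟩
  obtain ⟨k, k1, k2⟩ := (infDist_lt_iff ⟨0, L.1.zero_mem⟩).1 l1
  rw [dist_comm, dist_eq_norm, lt_min_iff] at k2
  have u := Ring.mul_inverse_cancel _ (isUnit_one_sub_of_norm_lt_one k2.2)
  set v := Ring.inverse (1 - (k - (a * b - 1)))
  have h3 := (DF_iff L).1 l3 a (b * v) (by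
    rw [← u, show a * (b * v) - (1 - (k - (a * b - 1))) * v = k * v by noncomm_ring]
    exact L.1.mul_mem_right _ _ k1)
  have h4 := infDist_le_dist_of_mem (x := b * a - 1) (s := L.1) h3
  have h5 := h2 (y := k - (a * b - 1)) (by simpa using k2.1)
  rw [dist_eq_norm, show b * a - 1 - (b * v * a - 1) = b * (1 - v) * a by noncomm_ring] at h4
  exact lt_irrefl _ ((l2.trans_le h4).trans h5)

end Pool.Agent.Results.MP_332c3b_lc.Closed
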